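import Pool.Agent.N687.W.G4

/-!
# The divisor problem: no window is calmer than the limit law

The error term `Δ(y²)/√y` is smoothed from both sides; its pairing with a character over an arbitrary window
`[Y, Y + H]` is `c H + o(H)` uniformly in `Y` (`Pool.Agent.N687.W.pair_ch`).  A convex function is bounded
from below by its tangents; the tangent used at the point `y` is chosen by a Bernstein partition of unity
evaluated at a partial sum of the Voronoi series, so that the slope is a trigonometric polynomial in `y` and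
only pairings of the error term with finitely many characters occur (`Pool.Agent.N687.W.dom_PL`).  No upper
bound for the error term in the window is needed, and none is available there.
-/

set_option autoImplicit false

open MeasureTheory Filter Topology

namespace Pool.Agent.Results.MP_bc6037_nt.ConvexInEveryWindow

open Pool.Agent.N687.W Pool.Agent.N687.W.Gn
open Pool.Agent.H387R2.Vor (Ed Del)

/-- **Convex domination in every window.** Let `Δ(x) = ∑_{n ≤ x} d(n) - x(log x + 2γ - 1)` be the function `Δ_2`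
of the Piltz divisor problem, and let `ν` be the limit law of `Δ(x)/x^{1/4}`, `x = y²` (Heath-Brown; mean `0`,
variance `∑ d(m)² / (4π² m^{3/2})`, full support).
(1) For every convex `Φ : ℝ → ℝ` and every `A < ∫ Φ dν` (every real `A`, if the integral is infinite) there is
`H₀` such that `(1/H) ∫_Y^{Y+H} Φ(Δ(y²)/√y) dy ≥ A` for **all** windows `[Y, Y + H]` with `Y ≥ 1`, `H ≥ H₀`,
however short they are compared with `Y`. For instance all moments of order `p ≥ 1` of `|Δ|` and of the positive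
and of the negative part of `Δ`, and all exponential moments are in every window asymptotically at least as large
as in the limit law; and the mean over every window tends to `0` uniformly (`Φ(x) = ± x`).
(2) This is sharp: if `Φ` has at most quadratic growth, then for all `ε, H > 0` and all `Y₀` some window with
`Y ≥ Y₀` has `(1/H) ∫_Y^{Y+H} Φ(Δ(y²)/√y) dy ≤ ∫ Φ dν + ε`. -/
theorem result (Δ : ℝ → ℝ)
    (hΔ : ∀ x : ℝ, Δ x = ∑ n ∈ Finset.Icc 1 ⌊x⌋₊, (n.divisors.card : ℝ) - x * (Real.log x + 2 * Real.eulerMascheroniConstant - 1)) :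
    ∃ ν : ProbabilityMeasure ℝ,
      (∀ u v : ℝ, u < v → 0 < (ν : Measure ℝ) (Set.Ioo u v)) ∧
      Integrable (fun x : ℝ => x ^ 2) (ν : Measure ℝ) ∧
      ∫ x, x ∂(ν : Measure ℝ) = 0 ∧
      HasSum (fun m : ℕ => (m.divisors.card : ℝ) ^ 2 / (4 * Real.pi ^ 2) * (m : ℝ) ^ (-(3 / 2) : ℝ)) (∫ x, x ^ 2 ∂(ν : Measure ℝ)) ∧
      (∀ f : ℝ → ℝ, Continuous f → (∃ C : ℝ, ∀ x, |f x| ≤ C * (1 + x ^ 2)) →
        Tendsto (fun T : ℝ => (∫ y in T..(2 * T), f (Δ (y ^ 2) / √y)) / T) atTop (𝓝 (∫ x, f x ∂(ν : Measure ℝ)))) ∧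
      (∀ Φ : ℝ → ℝ, ConvexOn ℝ Set.univ Φ → ∀ A : ℝ,
        (Integrable Φ (ν : Measure ℝ) → A < ∫ x, Φ x ∂(ν : Measure ℝ)) →
        ∃ H₀ : ℝ, ∀ Y H : ℝ, 1 ≤ Y → H₀ ≤ H → A * H ≤ ∫ y in Y..(Y + H), Φ (Δ (y ^ 2) / √y)) ∧
      (∀ Φ : ℝ → ℝ, ConvexOn ℝ Set.univ Φ → (∃ C : ℝ, ∀ x, |Φ x| ≤ C * (1 + x ^ 2)) →
        ∀ ε H Y₀ : ℝ, 0 < ε → 0 < H → ∃ Y : ℝ, 1 ≤ Y ∧ Y₀ ≤ Y ∧
          ∫ y in Y..(Y + H), Φ (Δ (y ^ 2) / √y) ≤ (∫ x, Φ x ∂(ν : Measure ℝ) + ε) * H) := by
  have hΔD : ∀ x : ℝ, Δ x = Del x := by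
    intro x
    rw [hΔ]
    unfold Del
    rw [show x * (Real.log x + 2 * Real.eulerMascheroniConstant - 1) =
      x * Real.log x + (2 * Real.eulerMascheroniConstant - 1) * x by ring, ← sub_sub]
    rfl
  have hE : ∀ y : ℝ, Δ (y ^ 2) / √y = Ed y := by
    intro y
    rw [hΔD]
    rfl
  obtain ⟨ν, h4, h5, h6, h7, h8, h9⟩ := Ed_law
  refine ⟨ν, h4, h5, h6, h7, ?_, ?_, ?_⟩
  · intro f hf hC
    simp only [hE, two_mul]
    rw [Metric.tendsto_atTop]
    intro ε hε
    obtain ⟨T₀, hT₀⟩ := h8 f hf hC (ε / 2) (by positivity)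
    refine ⟨T₀, fun T hT => ?_⟩
    rw [Real.dist_eq]
    exact (hT₀ T hT).trans_lt (by linarith)
  · intro Φ hΦ A hA
    simp only [hE]
    obtain ⟨H₀, _, h10⟩ := datD.dom h5 h9 hΦ hA
    refine ⟨max H₀ 0, fun Y H hY hH => ?_⟩
    have hH1 : H₀ ≤ H := (le_max_left _ _).trans hH
    have hH0 : 0 ≤ H := (le_max_right _ _).trans hH
    have h11 := h10 (2 * Y) (2 * H) (by linarith) (by linarith)
    rw [E2_int Φ Y H] at h11
    linarith
  · intro Φ hΦ hC ε H Y₀ hε hH
    simp only [hE]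
    obtain ⟨R, h10, h11, h12⟩ := datD.sharp (R₀ := max (2 * Y₀) 2) h9 (conv_cont hΦ) hC hε (show 0 < 2 * H by linarith)
    have h13 := (le_max_left _ _).trans h10
    have h14 := (le_max_right _ _).trans h10
    refine ⟨R / 2, by linarith, by linarith, ?_⟩
    have h15 := E2_int Φ (R / 2) H
    rw [show 2 * (R / 2) = R by ring] at h15
    rw [h15] at h12
    linarith

end Pool.Agent.Results.MP_bc6037_nt.ConvexInEveryWindow
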