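import Pool.Agent.N687.W.G3

/-!
# The divisor problem: superlinearly many crossings of every level in every window

Write `E(y) = Δ(y²)/√y` for the error term `Δ = Δ_2` of the Dirichlet divisor problem. Split the Voronoi series
of `E` at the square class `D`: the part `E_D` from the square classes `≥ D` has variance `V(D)` with
`V(D) √D → ∞` (a lower bound for the number of integers with many divisors, weighted). The mean of `|E - c|` over
any window is asymptotically at least its value for the limit law (a convex function, `Dat.low_dev`), which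
exceeds the value for the law of the part from the classes `< D` by `≥ c₁ V(D)` (`Dat.prep`: independence of the
two parts and positivity of the density of the limit law at `c`). On the other hand this excess is at most the
pairing of `E_D` with the sign of `E - c`, which is small if the sign changes rarely (`up_pair`: the Fourier
coefficients of a function with few jumps decay, and no upper bound for `E` inside the window is used). Letting
`D → ∞` gives the result.
-/

set_option autoImplicit false

namespace Pool.Agent.Results.MP_bc6037_nt.CrossingsOfEveryLevel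

open Pool.Agent.N687.W.Gn

/-- **Superlinearly many crossings of every level in every window.** Let
`Δ(x) = ∑_{n ≤ x} d(n) - x(log x + 2γ - 1)` be the function `Δ_2` of the Piltz divisor problem. For every `A` and
every `K`, however large, there is `H₀` such that for every level `|c| ≤ A` and **every** window
`Y ≤ √x ≤ Y + H` with `Y ≥ 0` and `H ≥ H₀` there are at least `K H` points `x` in the window at which
`Δ(x) - c x^{1/4}` vanishes and changes sign from `+` to `-`. (Between two of them it also changes sign from `-`
to `+`.) -/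
theorem result (Δ : ℝ → ℝ)
    (hΔ : ∀ x : ℝ, Δ x = ∑ n ∈ Finset.Icc 1 ⌊x⌋₊, (n.divisors.card : ℝ) - x * (Real.log x + 2 * Real.eulerMascheroniConstant - 1)) :
    ∀ A K : ℝ, ∃ H₀ : ℝ, ∀ c : ℝ, |c| ≤ A → ∀ Y H : ℝ, 0 ≤ Y → H₀ ≤ H →
      ∃ S : Finset ℝ,
        (∀ x ∈ S, 0 < x ∧ √x ∈ Set.Icc Y (Y + H) ∧ Δ x = c * x ^ (1 / 4 : ℝ) ∧
          ∃ δ : ℝ, 0 < δ ∧ (∀ t ∈ Set.Ioo (x - δ) x, 0 < t ∧ c * t ^ (1 / 4 : ℝ) < Δ t) ∧
            ∀ t ∈ Set.Ioo x (x + δ), Δ t < c * t ^ (1 / 4 : ℝ)) ∧
        K * H ≤ S.card := by
  classical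
  have hq : ∀ t : ℝ, 0 < t → t ^ (1 / 4 : ℝ) = √(√t) := by
    intro t ht
    rw [Real.sqrt_eq_rpow, Real.sqrt_eq_rpow, ← Real.rpow_mul ht.le]
    norm_num
  -- the value at `t` in terms of `r = 2 √t`
  have hd : ∀ c t : ℝ, 0 < t → Δ t - c * t ^ (1 / 4 : ℝ) = FD (2 * √t) - qD c (2 * √t) := by
    intro c t ht
    have e1 : (2 * √t / 2) = √t := by ring
    have e2 : (√t)^2 = t := Real.sq_sqrt ht.le
    rw [hΔ, hq t ht]
    unfold FD qD
    rw [e1, e2]
    unfold Pool.Agent.H387R2.Vor.Dsum Pool.Agent.H387R2.Vor.dv
    ring
  intro A K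
  obtain ⟨H₀, h⟩ := manyD A (K / 2)
  refine ⟨max H₀ 0, fun c hc Y H hY hH => ?_⟩
  have hH1 : H₀ ≤ H := (le_max_left _ _).trans hH
  have hH0 : 0 ≤ H := (le_max_right _ _).trans hH
  obtain ⟨S, h1, h2⟩ := h c hc (2 * Y) (2 * H) (by linarith) (by linarith)
  have hinj : Set.InjOn (fun z : ℝ => (z/2)^2) (S : Set ℝ) := by
    intro z hz z' hz' hzz
    have k0 := (h1 z hz).1
    have k0' := (h1 z' hz').1
    simp only at hzz
    have := (pow_left_inj₀ (by linarith : 0 ≤ z/2) (by linarith : 0 ≤ z'/2) (by norm_num : (2:ℕ) ≠ 0)).mp hzz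
    linarith
  refine ⟨S.image (fun z => (z/2)^2), fun x hx => ?_, ?_⟩
  · rw [Finset.mem_image] at hx
    obtain ⟨z, hz, rfl⟩ := hx
    obtain ⟨k0, k1, k2, k3, δ, k4, k5, k6⟩ := h1 z hz
    have hx0 : 0 < (z/2)^2 := by positivity
    have hsq : √((z/2)^2) = z/2 := Real.sqrt_sq (by linarith)
    refine ⟨hx0, ?_, ?_, ?_⟩
    · rw [hsq]
      constructor <;> linarith
    · have := hd c ((z/2)^2) hx0
      rw [hsq, show 2 * (z/2) = z by ring, k3, sub_self] at this
      linarith
    · -- the neighbourhoods
      refine ⟨min ((z/2)^2) (z/2 * (δ/2)), lt_min hx0 (by positivity), ?_, ?_⟩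
      · intro t ht
        have m1 := min_le_left ((z/2)^2) (z/2 * (δ/2))
        have m2 := min_le_right ((z/2)^2) (z/2 * (δ/2))
        have ht0 : 0 < t := by linarith [ht.1]
        refine ⟨ht0, ?_⟩
        have hts : √t * √t = t := Real.mul_self_sqrt ht0.le
        have hs0 : 0 < √t := Real.sqrt_pos.mpr ht0
        have s1 : √t < z/2 := by
          rw [← hsq]
          exact Real.sqrt_lt_sqrt ht0.le ht.2
        have s2 : z/2 - δ/2 < √t := by
          by_contra hcon
          push Not at hcon
          have : √t * √t ≤ (z/2) * (z/2 - δ/2) := by nlinarith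
          nlinarith [ht.1]
        have := k5 (2 * √t) (by linarith) (by linarith)
        have h3 := hd c t ht0
        linarith
      · intro t ht
        have m2 := min_le_right ((z/2)^2) (z/2 * (δ/2))
        have ht0 : 0 < t := by linarith [ht.1]
        have hts : √t * √t = t := Real.mul_self_sqrt ht0.le
        have hs0 : 0 < √t := Real.sqrt_pos.mpr ht0
        have s1 : z/2 < √t := by
          rw [← hsq]
          exact Real.sqrt_lt_sqrt hx0.le ht.1
        have s2 : √t < z/2 + δ/2 := by
          by_contra hcon
          push Not at hcon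
          have : (z/2) * (z/2 + δ/2) ≤ √t * √t := by nlinarith
          nlinarith [ht.2]
        have := k6 (2 * √t) (by linarith) (by linarith)
        have h3 := hd c t ht0
        linarith
  · rw [Finset.card_image_of_injOn hinj]
    linarith

end Pool.Agent.Results.MP_bc6037_nt.CrossingsOfEveryLevel
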