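import Pool.Agent.N687.P.P6

/-!
# The divisor problem at dilated primes, with a power saving

The error term is approximated in mean square, on dyadic blocks of integers, by a short trigonometric sum in `√n`
(Voronoi; `ms_T` of the starting files), and the exponential sums `∑ Λ(n) e(α n + θ √n)`, `∑ μ(n) e(α n + θ √n)`
have a power saving uniformly in `α` (Vaughan's identity and van der Corput; `es_block` of the starting files). The
starting files conclude the case of the first moment with the weights `Λ` and `μ` and `κ = 1`; new are the mean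
square, the dilations `κ`, the primes themselves and the residue classes of any modulus.
-/

set_option autoImplicit false

namespace Pool.Agent.Results.MP_bc6037_nt.DilatedPrimes

open Pool.Agent.N687.P

/-- **The error term of the divisor problem at dilated primes.** Let
`Δ(x) = ∑_{n ≤ x} d(n) - x(log x + 2γ - 1)` be the function `Δ_2` of the Piltz divisor problem and let
`V = ∑ d(m)² / (4π² m^{3/2})`. For each real `κ > 0` there are `δ > 0` and `C` such that for all real `α`, all moduli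
`q ≥ 1`, all residues `b` and all `X ≥ 1`
`∑_{p ≤ X, p ≡ b (q)} e(α p) Δ(κ p)` and `∑_{n ≤ X, n ≡ b (q)} μ(n) e(α n) Δ(κ n)` are at most `C X^{5/4 - δ}`, and
`∑_{p ≤ X, p ≡ b (q)} e(α p) (Δ(κ p)² - V √(κ p))` and `∑_{n ≤ X, n ≡ b (q)} μ(n) e(α n) (Δ(κ n)² - V √(κ n))` are at
most `C X^{3/2 - δ}`. -/
theorem result (Δ : ℝ → ℝ)
    (hΔ : ∀ x : ℝ, Δ x = ∑ n ∈ Finset.Icc 1 ⌊x⌋₊, (n.divisors.card : ℝ) - x * (Real.log x + 2 * Real.eulerMascheroniConstant - 1)) :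
    ∃ V : ℝ, HasSum (fun m : ℕ => (m.divisors.card : ℝ) ^ 2 / (4 * Real.pi ^ 2) * (m : ℝ) ^ (-(3 / 2) : ℝ)) V ∧
    ∀ κ : ℝ, 0 < κ → ∃ δ : ℝ, 0 < δ ∧ ∃ C : ℝ, ∀ (α : ℝ) (q b X : ℕ), 1 ≤ q → 1 ≤ X →
      ‖∑ p ∈ (Finset.Icc 1 X).filter (fun p : ℕ => p.Prime ∧ p ≡ b [MOD q]),
        Complex.exp (2 * Real.pi * Complex.I * (α * p)) * ((Δ (κ * p) : ℝ) : ℂ)‖ ≤ C * (X:ℝ) ^ (5/4 - δ) ∧
      ‖∑ n ∈ (Finset.Icc 1 X).filter (fun n : ℕ => n ≡ b [MOD q]), ((ArithmeticFunction.moebius n : ℤ) : ℂ) *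
        Complex.exp (2 * Real.pi * Complex.I * (α * n)) * ((Δ (κ * n) : ℝ) : ℂ)‖ ≤ C * (X:ℝ) ^ (5/4 - δ) ∧
      ‖∑ p ∈ (Finset.Icc 1 X).filter (fun p : ℕ => p.Prime ∧ p ≡ b [MOD q]),
        Complex.exp (2 * Real.pi * Complex.I * (α * p)) * ((Δ (κ * p) ^ 2 - V * √(κ * p) : ℝ) : ℂ)‖ ≤ C * (X:ℝ) ^ (3/2 - δ) ∧
      ‖∑ n ∈ (Finset.Icc 1 X).filter (fun n : ℕ => n ≡ b [MOD q]), ((ArithmeticFunction.moebius n : ℤ) : ℂ) *
        Complex.exp (2 * Real.pi * Complex.I * (α * n)) * ((Δ (κ * n) ^ 2 - V * √(κ * n) : ℝ) : ℂ)‖ ≤ C * (X:ℝ) ^ (3/2 - δ) :=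
  ⟨_, ad_hasSum, fun _ hκ => div_four Δ hΔ hκ⟩

end Pool.Agent.Results.MP_bc6037_nt.DilatedPrimes
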